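import Pool.Agent.W322.HB.Tools

/-! HB-GEN: labelling a set of vertices with prescribed classes. -/

set_option autoImplicit false

namespace Pool.Agent.W440.HB

open Finset Pool.Agent.H115R3.DT Pool.Agent.W322.HB

theorem taskGen (hA : TaskAdd) (hV : TaskV) (hV0 : TaskV0) : TaskGen := by
  intro V _ R m C κ Q u T S g₁ g₂ g₃ G W f U l hN hst hnb hdis hpar hdp hlow hm
  induction hn : U.card generalizing U with
  | zero =>
    rw [card_eq_zero] at hn
    subst hn
    refine ⟨f, fun x _ => rfl, by simpa using hst, by simp, by simp, by simp, ?_, ?_, by simp⟩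
    · intro x hx
      left
      simpa using hx
    · intro x hx
      left
      simpa using hx
  | succ n ih =>
    have hne : U.Nonempty := by rw [← card_pos]; omega
    obtain ⟨a, haU, hmax⟩ := U.exists_max_image R.dp hne
    set U' : Finset V := U.erase a with hU'
    have hU'sub : U' ⊆ U := erase_subset _ _
    have hcard : U'.card + 1 = U.card := card_erase_add_one haU
    have hUv : ∀ x ∈ U, x ≠ R.v := by
      intro x hx h
      rw [h] at hx
      exact (Finset.disjoint_left.mp hdis hx) hst.root
    have hpa : ∀ x ∈ U, R.par x ≠ a := by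
      intro x hx h
      have h1 := R.dp_par x (hUv x hx)
      rw [h] at h1
      have h2 := hmax x hx
      omega
    obtain ⟨f1, h1, h2, h3, h4, h5, h6, h7, h8⟩ := ih U' (by omega)
      (Finset.disjoint_of_subset_left hU'sub hdis)
      (by
        intro x hx
        rcases mem_union.mp (hpar x (hU'sub hx)) with h | h
        · exact mem_union_left _ h
        · exact mem_union_right _ (mem_erase.mpr ⟨hpa x (hU'sub hx), h⟩))
      (fun x hx => hdp x (hU'sub hx)) (fun x hx => hlow x (hU'sub hx)) (by omega)
    set W1 : Finset V := W ∪ U' with hW1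
    have haW : a ∉ W := Finset.disjoint_left.mp hdis haU
    have haW1 : a ∉ W1 := by
      rw [hW1, mem_union, not_or]
      exact ⟨haW, fun h => (ne_of_mem_erase h) rfl⟩
    have hpaW1 : R.par a ∈ W1 := by
      rcases mem_union.mp (hpar a haU) with h | h
      · exact mem_union_left _ h
      · exact mem_union_right _ (mem_erase.mpr ⟨hpa a haU, h⟩)
    have hWU : insert a W1 = W ∪ U := by
      rw [hW1, ← union_insert, hU', insert_erase haU]
    have hT1 := hN.Tpos
    set d := R.dp a with hd
    have hd1 : d = R.dp (R.par a) + 1 := R.dp_par a (hUv a haU)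
    have hdC : d ≤ C := hdp a haU
    set lo := (C + 1 - d) * T with hlo
    have hlo1 : 1 ≤ lo := Nat.mul_pos (by omega) hT1
    have hloT : (C + 2 - d) * T = lo + T := by
      have : C + 2 - d = (C + 1 - d) + 1 := by omega
      rw [this, add_mul, one_mul]
    have hlom : lo + T ≤ m := by
      rw [← hloT]
      refine le_trans (Nat.mul_le_mul_right T ?_) hm
      omega
    have hAu : ((Us R W1 f1).filter (fun e => ¬ Nat.Coprime e G)).card ≤ u := by
      change nb G R W1 f1 ≤ u
      omega
    -- the new label
    obtain ⟨y, z, hy1, hy2, hy3, hyL, hzD, hz, hzv, hznv⟩ : ∃ y z : ℕ, lo ≤ y ∧ y < lo + T ∧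
        (y : ZMod Q) = l a ∧ y ∉ Ls R W1 f1 ∧ z ∉ Ds R W1 f1 ∧
        Int.natAbs ((y : ℤ) - (f1 (R.par a) : ℤ)) = z ∧ (R.par a = R.v → z = y) ∧
        (R.par a ≠ R.v → z = f1 (R.par a) - y ∧ y ≤ f1 (R.par a)) := by
      by_cases hv : R.par a = R.v
      · obtain ⟨y, e1, e2, e3, e4⟩ := hV0 C κ Q u T S g₁ g₂ g₃ G lo (l a) (Us R W1 f1) hN hAu hlo1
        unfold Us at e4
        rw [mem_union, not_or] at e4
        refine ⟨y, y, e1, e2, e3, e4.1, e4.2, ?_, fun _ => rfl, fun h => absurd hv h⟩
        rw [hv, h2.f0]
        simp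
      · have hφ : lo + T ≤ f1 (R.par a) := by
          rw [← hloT]
          rcases mem_union.mp hpaW1 with h | h
          · rw [h1 _ h]
            exact hlow a haU h hv
          · have h9 := (h3 _ h).1
            have h10 : C + 2 - d = C + 1 - R.dp (R.par a) := by omega
            rw [h10]
            exact h9
        obtain ⟨y, e1, e2, e3, e4, e5, e6⟩ := hV C κ Q u T S g₁ g₂ g₃ G lo (f1 (R.par a)) (l a)
          (Us R W1 f1) hN hAu hlo1 hφ
        unfold Us at e4 e5
        rw [mem_union, not_or] at e4 e5
        refine ⟨y, f1 (R.par a) - y, e1, e2, e3, e4.1, e5.2, ?_, fun h => absurd h hv,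
          fun _ => ⟨rfl, by omega⟩⟩
        omega
    obtain ⟨g1, g2, g3⟩ := hA V R m W1 f1 a y h2 haW1 hpaW1 (by omega) (by omega) hyL
      (by rw [hz]; exact hzD)
    rw [hz] at g3
    set f' : V → ℕ := Function.update f1 a y with hf'
    rw [hWU] at g1 g2 g3
    have hfa : f' a = y := Function.update_self _ _ _
    have hfne : ∀ x, x ≠ a → f' x = f1 x := fun x hx => Function.update_of_ne hx _ _
    have hfp : ∀ x ∈ U, f' (R.par x) = f1 (R.par x) := fun x hx => hfne _ (hpa x hx)
    have hmemU : ∀ x ∈ U, x = a ∨ (x ≠ a ∧ x ∈ U') := by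
      intro x hx
      by_cases h : x = a
      · exact Or.inl h
      · exact Or.inr ⟨h, mem_erase.mpr ⟨h, hx⟩⟩
    refine ⟨f', ?_, g1, ?_, ?_, ?_, ?_, ?_, ?_⟩
    · intro x hx
      rw [hfne x (fun h => haW (h ▸ hx)), h1 x hx]
    · intro x hx
      rcases hmemU x hx with rfl | ⟨hxa, hx'⟩
      · rw [hfa, hloT]
        exact ⟨hy1, hy2, hy3⟩
      · rw [hfne x hxa]
        exact h3 x hx'
    · intro x hx hxv
      rcases hmemU x hx with rfl | ⟨hxa, hx'⟩
      · unfold RT.dif
        rw [hfa, hfp x hx, hz]
        exact (hznv hxv).1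
      · have h9 := h4 x hx' hxv
        unfold RT.dif at h9 ⊢
        rw [hfne x hxa, hfp x hx]
        exact h9
    · have h9 : Us R (W ∪ U) f' ⊆ Us R W1 f1 ∪ {y, z} := by
        unfold Us
        rw [g2, g3]
        intro x hx
        simp only [mem_union, mem_insert, mem_singleton] at hx ⊢
        tauto
      have h10 := nb_le (G := G) h9
      have h11 : ({y, z} : Finset ℕ).card ≤ 2 := card_le_two
      omega
    · intro x hx
      rw [g2, g3, mem_sdiff, mem_insert, mem_insert, not_or] at hx
      obtain ⟨hx1, hx2, hx3⟩ := hx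
      rcases hx1 with hx1 | hx1
      · right
        refine ⟨a, haU, ?_, by rw [hfa, hx1]⟩
        intro hv
        exact hx2 (by rw [hx1, hzv hv])
      · rcases h6 x (mem_sdiff.mpr ⟨hx1, hx3⟩) with h | ⟨w, hw1, hw2, hw3⟩
        · exact Or.inl h
        · right
          refine ⟨w, hU'sub hw1, hw2, ?_⟩
          rw [hfne w (ne_of_mem_erase hw1)]
          exact hw3
    · intro x hx
      rw [g2, g3, mem_sdiff, mem_insert, mem_insert, not_or] at hx
      obtain ⟨hx1, hx2, hx3⟩ := hx
      rcases hx1 with hx1 | hx1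
      · right
        have hv : R.par a ≠ R.v := by
          intro hv
          exact hx2 (by rw [hx1, hzv hv])
        refine ⟨a, haU, hv, ?_⟩
        rw [hfa, hfp a haU, hx1]
        exact (hznv hv).1
      · rcases h7 x (mem_sdiff.mpr ⟨hx1, hx3⟩) with h | ⟨w, hw1, hw2, hw3⟩
        · exact Or.inl h
        · right
          refine ⟨w, hU'sub hw1, hw2, ?_⟩
          rw [hfne w (ne_of_mem_erase hw1), hfp w (hU'sub hw1)]
          exact hw3
    · -- the class vector
      have hM : Mv Q R (W ∪ U) f' = Mv Q R W1 f1 + (sg Q (z : ZMod Q) - sg Q (y : ZMod Q)) := by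
        unfold Mv
        rw [g2, g3, sum_insert hyL, sum_insert hzD]
        abel
      have hrest : ∑ x ∈ U'.filter (fun x => R.par x ≠ R.v),
          (sg Q ((f' (R.par x) : ZMod Q) - l x) - sg Q (l x)) =
          ∑ x ∈ U'.filter (fun x => R.par x ≠ R.v),
          (sg Q ((f1 (R.par x) : ZMod Q) - l x) - sg Q (l x)) := by
        refine sum_congr rfl fun x hx => ?_
        rw [hfp x (hU'sub (mem_of_mem_filter x hx))]
      by_cases hv : R.par a = R.v
      · have hfil : U.filter (fun x => R.par x ≠ R.v) = U'.filter (fun x => R.par x ≠ R.v) := by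
          ext x
          simp only [mem_filter, hU', mem_erase]
          constructor
          · rintro ⟨e1, e2⟩
            exact ⟨⟨fun e => e2 (e ▸ hv), e1⟩, e2⟩
          · rintro ⟨⟨_, e1⟩, e2⟩
            exact ⟨e1, e2⟩
        rw [hM, hfil, hrest, h8, hzv hv, sub_self, add_zero]
      · have hfil : U.filter (fun x => R.par x ≠ R.v) =
            insert a (U'.filter (fun x => R.par x ≠ R.v)) := by
          ext x
          simp only [mem_filter, hU', mem_erase, mem_insert]
          constructor
          · rintro ⟨e1, e2⟩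
            by_cases e : x = a
            · exact Or.inl e
            · exact Or.inr ⟨⟨e, e1⟩, e2⟩
          · rintro (e | ⟨⟨_, e1⟩, e2⟩)
            · subst e
              exact ⟨haU, hv⟩
            · exact ⟨e1, e2⟩
        have hanot : a ∉ U'.filter (fun x => R.par x ≠ R.v) := by
          intro h
          exact (ne_of_mem_erase (mem_of_mem_filter a h)) rfl
        have hzc : (z : ZMod Q) = (f1 (R.par a) : ZMod Q) - l a := by
          rw [(hznv hv).1, Nat.cast_sub (hznv hv).2, hy3]
        rw [hM, hfil, sum_insert hanot, hrest, h8, hfp a haU, hzc, hy3]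
        abel

end Pool.Agent.W440.HB
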